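import Pool.Agent.Lib.MP_557074_an.Final

set_option autoImplicit false
open Complex Filter Topology

namespace Pool.Agent.Results.MP_557074_an.NoRealCriticalPoints

open Pool.Agent.Lib.MP_557074_an

/-- **No real critical points.** Let `s ↦ (m s, w s)` be an injective holomorphic germ with values
in `C_l` (i.e. the normalization `ν` of `C_l`, read in a local coordinate `s` at a point `p`),
and let `ν(p) = (m 0, w 0)` be real. Then `d(ω ∘ ν)(p) ≠ 0`. -/
theorem result (l : ℤ) (m w : ℂ → ℂ) (hm : AnalyticAt ℂ m 0) (hw : AnalyticAt ℂ w 0)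
    (hC : ∀ᶠ s in 𝓝 (0:ℂ), (m s, w s) ∈ Cset l)
    (hinj : ∃ U ∈ 𝓝 (0:ℂ), Set.InjOn (fun s => (m s, w s)) U)
    (hmr : (m 0).im = 0) (hwr : (w 0).im = 0) : deriv w 0 ≠ 0 :=
  no_real_critical l m w hm hw hC hinj hmr hwr

end Pool.Agent.Results.MP_557074_an.NoRealCriticalPoints
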